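import Pool.Agent.U481.HW.Stm

set_option autoImplicit false

/-!
Project HW (helper481, MP_945c9c_an), package KERNEL: smoothness of the Hilbert transform of a function
vanishing on the triple of a dyadic interval.
-/

open MeasureTheory Filter Topology Set
open scoped ENNReal NNReal

namespace Pool.Agent.U211.HW.Kernel

open Pool.Dav Pool.Agent.U481.HW

theorem hilbert_eq {f : ℝ → ℂ} {x : ℝ} {v : ℂ} (h : HasHilbert f x v) : hilbert f x = v := by
  have hex : ∃ v, HasHilbert f x v := ⟨v, h⟩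
  unfold hilbert
  rw [dif_pos hex]
  exact tendsto_nhds_unique hex.choose_spec h

/-- points of `DD r` are at distance at least `2 ^ n` from the complement of `D3 r` -/
theorem dist_ge {r : ℤ × ℤ} {x y : ℝ} (hx : x ∈ DD r) (hy : y ∉ D3 r) : (2 : ℝ) ^ r.1 ≤ |x - y| := by
  have hl : (0 : ℝ) < 2 ^ r.1 := by positivity
  obtain ⟨h1, h2⟩ := hx
  have hy' : y < ((r.2 : ℝ) - 1) * 2 ^ r.1 ∨ ((r.2 : ℝ) + 2) * 2 ^ r.1 ≤ y := by
    by_contra h
    push Not at h
    exact hy ⟨h.1, h.2⟩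
  rcases hy' with h | h
  · refine le_trans ?_ (le_abs_self _)
    nlinarith
  · rw [abs_sub_comm]
    refine le_trans ?_ (le_abs_self _)
    nlinarith

theorem dist_le {r : ℤ × ℤ} {x x' : ℝ} (hx : x ∈ DD r) (hx' : x' ∈ DD r) :
    |x - x'| ≤ (2 : ℝ) ^ r.1 := by
  obtain ⟨h1, h2⟩ := hx
  obtain ⟨h3, h4⟩ := hx'
  rw [abs_le]
  constructor <;> nlinarith

/-- For `x` in `DD r` and `g` vanishing on `D3 r` the principal value exists and is the integral. -/
theorem hil_ext {g : ℝ → ℂ} {r : ℤ × ℤ} (h0 : ∀ y ∈ D3 r, g y = 0) {x : ℝ} (hx : x ∈ DD r) :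
    HasHilbert g x ((1 / (Real.pi : ℂ)) * ∫ y, g y / ((x : ℂ) - (y : ℂ))) := by
  have hl : (0 : ℝ) < 2 ^ r.1 := by positivity
  unfold HasHilbert
  refine Tendsto.congr' ?_ tendsto_const_nhds
  have hev : ∀ᶠ ε : ℝ in 𝓝[>] (0 : ℝ), ε < 2 ^ r.1 :=
    mem_nhdsWithin_of_mem_nhds (Iio_mem_nhds hl)
  filter_upwards [hev] with ε hε
  unfold truncH
  rw [setIntegral_eq_integral_of_forall_compl_eq_zero]
  intro y hy
  have hy' : |x - y| ≤ ε := not_lt.1 hy
  have : y ∈ D3 r := by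
    by_contra hn
    exact absurd (dist_ge hx hn) (not_le.2 (hy'.trans_lt hε))
  rw [h0 y this, zero_div]

theorem int_div {g : ℝ → ℂ} (hg : Integrable g) {r : ℤ × ℤ} (h0 : ∀ y ∈ D3 r, g y = 0) {x : ℝ}
    (hx : x ∈ DD r) : Integrable (fun y : ℝ => g y / ((x : ℂ) - (y : ℂ))) := by
  have hl : (0 : ℝ) < 2 ^ r.1 := by positivity
  refine Integrable.mono' (hg.norm.mul_const ((2 : ℝ) ^ r.1)⁻¹)
    (hg.aestronglyMeasurable.aemeasurable.div (by fun_prop)).aestronglyMeasurable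
    (Eventually.of_forall fun y => ?_)
  by_cases hy : y ∈ D3 r
  · rw [h0 y hy]
    simp
  · have h1 := dist_ge hx hy
    rw [norm_div, ← Complex.ofReal_sub, Complex.norm_real, Real.norm_eq_abs, div_eq_mul_inv]
    exact mul_le_mul_of_nonneg_left (inv_anti₀ hl h1) (norm_nonneg _)

theorem int_le (f : ℝ → ℝ≥0∞) {a b x : ℝ} (ha : a < x) (hb : x < b) :
    ∫⁻ y in Ioo a b, f y ≤ MM volume f x * ENNReal.ofReal (b - a) := by
  have h1 : (∫⁻ y in Ioo a b, f y ∂volume) / volume (Ioo a b) ≤ MM volume f x := by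
    unfold MM
    exact le_iSup_of_le a (le_iSup_of_le b (le_iSup_of_le ⟨ha, hb⟩ le_rfl))
  rw [Real.volume_Ioo] at h1
  have h2 : ENNReal.ofReal (b - a) ≠ 0 := by
    rw [Ne, ENNReal.ofReal_eq_zero, not_le]
    linarith
  rwa [ENNReal.div_le_iff h2 ENNReal.ofReal_ne_top] at h1

theorem main : S_kernel := by
  refine ⟨16, by norm_num, fun g hg r h0 x hx x' hx' => ?_⟩
  have hl : (0 : ℝ) < 2 ^ r.1 := by positivity
  set l : ℝ := 2 ^ r.1 with hldef
  set M := MM volume (fun y => ‖g y‖ₑ) x' with hM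
  rw [hilbert_eq (hil_ext h0 hx), hilbert_eq (hil_ext h0 hx'), ← mul_sub,
    ← integral_sub (int_div hg h0 hx) (int_div hg h0 hx')]
  have hpi : ‖(1 / (Real.pi : ℂ))‖ₑ ≤ 1 := by
    rw [← ofReal_norm_eq_enorm, ← ENNReal.ofReal_one]
    apply ENNReal.ofReal_le_ofReal
    rw [norm_div, norm_one, Complex.norm_real, Real.norm_eq_abs, abs_of_pos Real.pi_pos]
    rw [div_le_one Real.pi_pos]
    linarith [Real.pi_gt_three]
  rw [enorm_mul]
  have hpt : ∀ y : ℝ, ‖g y / ((x : ℂ) - (y : ℂ)) - g y / ((x' : ℂ) - (y : ℂ))‖ₑ ≤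
      ∑' k : ℕ, ENNReal.ofReal (2 / (4 ^ k * l)) *
        (Ioo (x' - 2 ^ (k + 1) * l) (x' + 2 ^ (k + 1) * l)).indicator (fun y => ‖g y‖ₑ) y := by
    intro y
    by_cases hy : y ∈ D3 r
    · rw [h0 y hy]
      simp
    · have h1 := dist_ge hx hy
      have h2 := dist_ge hx' hy
      have h3 := dist_le hx' hx
      have h4 : |x' - y| ≤ 2 * |x - y| := by
        have : |x' - y| ≤ |x' - x| + |x - y| := abs_sub_le _ _ _
        linarith
      obtain ⟨k, hk1, hk2⟩ := exists_nat_pow_near (x := |x' - y| / l) (y := (2 : ℝ))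
        (by rw [le_div_iff₀ hl, one_mul]; exact h2) one_lt_two
      rw [le_div_iff₀ hl] at hk1
      rw [div_lt_iff₀ hl] at hk2
      refine le_trans ?_ (ENNReal.le_tsum k)
      have hmem : y ∈ Ioo (x' - 2 ^ (k + 1) * l) (x' + 2 ^ (k + 1) * l) := by
        rw [abs_lt] at hk2
        exact ⟨by linarith [hk2.2], by linarith [hk2.1]⟩
      rw [indicator_of_mem hmem]
      have hxy : (x : ℂ) - (y : ℂ) ≠ 0 := by
        rw [← Complex.ofReal_sub, Complex.ofReal_ne_zero]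
        intro h
        rw [h, abs_zero] at h1
        linarith
      have hxy' : (x' : ℂ) - (y : ℂ) ≠ 0 := by
        rw [← Complex.ofReal_sub, Complex.ofReal_ne_zero]
        intro h
        rw [h, abs_zero] at h2
        linarith
      have he : g y / ((x : ℂ) - (y : ℂ)) - g y / ((x' : ℂ) - (y : ℂ)) =
          (((x' - x) / ((x - y) * (x' - y)) : ℝ) : ℂ) * g y := by
        push_cast
        field_simp
        ring
      rw [he, enorm_mul]
      refine mul_le_mul_left ?_ _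
      rw [← ofReal_norm_eq_enorm]
      apply ENNReal.ofReal_le_ofReal
      rw [Complex.norm_real, Real.norm_eq_abs, abs_div, abs_mul]
      have hp1 : 0 < |x - y| := lt_of_lt_of_le hl h1
      have hp2 : 0 < |x' - y| := lt_of_lt_of_le hl h2
      rw [div_le_div_iff₀ (mul_pos hp1 hp2) (by positivity)]
      have h5 : (4 : ℝ) ^ k * l * l ≤ |x' - y| * |x' - y| := by
        have : (4 : ℝ) ^ k = 2 ^ k * 2 ^ k := by rw [← mul_pow]; norm_num
        rw [this]
        calc (2 : ℝ) ^ k * 2 ^ k * l * l = (2 ^ k * l) * (2 ^ k * l) := by ring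
          _ ≤ _ := mul_le_mul hk1 hk1 (by positivity) (abs_nonneg _)
      calc |x' - x| * (4 ^ k * l) ≤ l * (4 ^ k * l) :=
            mul_le_mul_of_nonneg_right h3 (by positivity)
        _ = 4 ^ k * l * l := by ring
        _ ≤ |x' - y| * |x' - y| := h5
        _ ≤ 2 * |x - y| * |x' - y| := mul_le_mul_of_nonneg_right h4 (abs_nonneg _)
        _ = 2 * (|x - y| * |x' - y|) := by ring
  have hmeas : ∀ k : ℕ, AEMeasurable (fun y : ℝ => ENNReal.ofReal (2 / (4 ^ k * l)) *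
      (Ioo (x' - 2 ^ (k + 1) * l) (x' + 2 ^ (k + 1) * l)).indicator (fun y => ‖g y‖ₑ) y) volume := by
    intro k
    exact (hg.aestronglyMeasurable.enorm.indicator measurableSet_Ioo).const_mul _
  have hterm : ∀ k : ℕ, (∫⁻ y : ℝ, ENNReal.ofReal (2 / (4 ^ k * l)) *
      (Ioo (x' - 2 ^ (k + 1) * l) (x' + 2 ^ (k + 1) * l)).indicator (fun y => ‖g y‖ₑ) y) ≤
      ENNReal.ofReal (8 * (1 / 2) ^ k) * M := by
    intro k
    rw [lintegral_const_mul'' _ (hg.aestronglyMeasurable.enorm.indicator measurableSet_Ioo),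
      lintegral_indicator measurableSet_Ioo]
    have hpos : (0 : ℝ) < 2 ^ (k + 1) * l := by positivity
    have h6 := int_le (fun y => ‖g y‖ₑ) (a := x' - 2 ^ (k + 1) * l) (b := x' + 2 ^ (k + 1) * l)
      (x := x') (by linarith) (by linarith)
    calc ENNReal.ofReal (2 / (4 ^ k * l)) *
          ∫⁻ y in Ioo (x' - 2 ^ (k + 1) * l) (x' + 2 ^ (k + 1) * l), ‖g y‖ₑ
        ≤ ENNReal.ofReal (2 / (4 ^ k * l)) *
          (M * ENNReal.ofReal (x' + 2 ^ (k + 1) * l - (x' - 2 ^ (k + 1) * l))) := by gcongr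
      _ = ENNReal.ofReal (2 / (4 ^ k * l) * (x' + 2 ^ (k + 1) * l - (x' - 2 ^ (k + 1) * l))) * M := by
          rw [ENNReal.ofReal_mul (by positivity)]
          ring
      _ = ENNReal.ofReal (8 * (1 / 2) ^ k) * M := by
          congr 2
          have : (4 : ℝ) ^ k = 2 ^ k * 2 ^ k := by rw [← mul_pow]; norm_num
          rw [this, one_div, inv_pow, pow_succ]
          field_simp
          ring
  calc ‖(1 / (Real.pi : ℂ))‖ₑ *
        ‖∫ y : ℝ, (g y / ((x : ℂ) - (y : ℂ)) - g y / ((x' : ℂ) - (y : ℂ)))‖ₑ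
      ≤ 1 * ∫⁻ y : ℝ, ‖g y / ((x : ℂ) - (y : ℂ)) - g y / ((x' : ℂ) - (y : ℂ))‖ₑ :=
        mul_le_mul' hpi (enorm_integral_le_lintegral_enorm _)
    _ ≤ ∫⁻ y : ℝ, ∑' k : ℕ, ENNReal.ofReal (2 / (4 ^ k * l)) *
        (Ioo (x' - 2 ^ (k + 1) * l) (x' + 2 ^ (k + 1) * l)).indicator (fun y => ‖g y‖ₑ) y := by
        rw [one_mul]
        exact lintegral_mono hpt
    _ = ∑' k : ℕ, ∫⁻ y : ℝ, ENNReal.ofReal (2 / (4 ^ k * l)) *
        (Ioo (x' - 2 ^ (k + 1) * l) (x' + 2 ^ (k + 1) * l)).indicator (fun y => ‖g y‖ₑ) y :=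
        lintegral_tsum hmeas
    _ ≤ ∑' k : ℕ, ENNReal.ofReal (8 * (1 / 2) ^ k) * M := ENNReal.tsum_le_tsum hterm
    _ = 16 * M := by
        rw [ENNReal.tsum_mul_right]
        congr 1
        rw [← ENNReal.ofReal_tsum_of_nonneg (fun k => by positivity)
          (summable_geometric_two.mul_left 8), tsum_mul_left, tsum_geometric_two]
        norm_num

end Pool.Agent.U211.HW.Kernel
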